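import Pool.Agent.R593.Sn.Model
import Pool.Agent.R593.Sn.Zfc

/-!
# The consistency of `add(N) < add(SN) < b`

There is a ccc notion of forcing `P` which forces the combinatorial sentence `Phi K L T`
(`PhiHolds P K L T` is its literal translation into the forcing language), and this sentence
implies that `add(N) < add(SN) < b`.

Idea. `Phi` says: (1) some `K`-indexed family of functions is not captured by a slalom of width
`n`, so `add(N) ≤ #K`; (2) for every bound `b` there are intervals such that all `K`-indexed
families of functions below `b` are guessed by one function in almost every interval, so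
`#K < add(SN)`; (3) `L`-indexed families of functions are eventually dominated, so `#L < b`;
(4) there are `L` many strong measure zero sets `X_ξ = {x : for all t, x agrees with w ξ t on
[n, n + f t n) for infinitely many n}` whose union does not have strong measure zero, so
`add(SN) ≤ #L`. In the finite support iteration the intervals for (2) grow so fast that the
forcing for (2) keeps a family of `K` many Cohen reals for (1), and any `L` many conditions have
finitely many compatible members as is needed for (4).
-/

set_option autoImplicit false

namespace Pool.Agent.Results.MP_f6e1de_lc.NullStrongNullB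

open Cardinal Pool.Agent.R593.Sn

/-- (A) There are sets `K` and `L` of cardinality `ℵ₁` and `ℵ₂`, a set `T`, and a ccc notion of
forcing `P` all of whose conditions force the sentence `Phi K L T`. (B) Whenever `Phi K L T`
holds, `add(N) ≤ #K < add(SN) ≤ #L < b`. -/
theorem result :
    (∃ (K L T P : Type) (_ : Preorder P), #K = ℵ₁ ∧ #L = Order.succ ℵ₁ ∧ Nonempty P ∧
      (∀ A : Set P, (∀ p ∈ A, ∀ q ∈ A, p ≠ q → ¬ ∃ r, r ≤ p ∧ r ≤ q) → A.Countable) ∧
      ∀ p : P, p ∈ PhiHolds P K L T) ∧
    (∀ K L T : Type, Phi K L T →
      addOf NullId ≤ #K ∧ #K < addOf StrongNull ∧ addOf StrongNull ≤ #L ∧ #L < bNum) :=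
  ⟨exists_forcing, fun _ _ _ h =>
    ⟨notLoc_add h.1, blockCap_add h.2.1, wit_add h.2.2.2, dom_b h.2.2.1⟩⟩

end Pool.Agent.Results.MP_f6e1de_lc.NullStrongNullB
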